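import Mathlib

set_option autoImplicit false
open scoped InnerProductSpace

namespace Pool.Agent.Results.MP_e57dcf_an.NotDense

abbrev E (n : ℕ) := EuclideanSpace ℝ (Fin n)

/-- frames with `m` vectors -/
def Frame {n m : ℕ} (x : Fin m → E n) : Prop :=
  ∃ A B : ℝ, 0 < A ∧ A ≤ B ∧ ∀ v, A * ‖v‖ ^ 2 ≤ ∑ i, |⟪v, x i⟫_ℝ| ^ 2 ∧
    ∑ i, |⟪v, x i⟫_ℝ| ^ 2 ≤ B * ‖v‖ ^ 2

/-- weakly the same phase -/
def WeakSame {n : ℕ} (x y : E n) : Prop :=
  ∃ θ : SignType, (θ = 1 ∨ θ = -1) ∧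
    ∀ k, x k * y k ≠ 0 → SignType.sign (x k) = θ * SignType.sign (y k)

/-- weak phase retrieval -/
def WPR {n m : ℕ} (φ : Fin m → E n) : Prop :=
  ∀ x y : E n, (∀ i, |⟪x, φ i⟫_ℝ| = |⟪y, φ i⟫_ℝ|) → WeakSame x y

lemma kernel {n : ℕ} (φ : Fin n → E (n + 1)) (σ : Fin n → Fin (n + 1)) (c : Fin (n + 1))
    (hσ : ∀ k, k ≠ c → ∃ i, σ i = k)
    (h : ∀ i, ‖φ i - EuclideanSpace.single (σ i) 1‖ < 1 / (2 * (n + 1))) :
    ∃ a : E (n + 1), (∀ i, ⟪a, φ i⟫_ℝ = 0) ∧ |a c| = 1 ∧ ∀ k, k ≠ c → |a k| < 1 / 2 := by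
  set L : E (n + 1) →ₗ[ℝ] (Fin n → ℝ) := LinearMap.pi fun i => (innerSL ℝ (φ i)).toLinearMap
  obtain ⟨v, hv, hv0⟩ := (Submodule.ne_bot_iff _).1
    (LinearMap.ker_ne_bot_of_finrank_lt (f := L) (by simp))
  obtain ⟨j, hj⟩ := Finite.exists_max fun k => |v k|
  have hpos : 0 < |v j| := by
    by_contra hc
    exact hv0 (by ext k; simpa using (hj k).trans (not_lt.1 hc))
  set a := |v j|⁻¹ • v with ha
  have h1 : ∀ k, |a k| ≤ 1 := fun k => by
    rw [ha, PiLp.smul_apply, smul_eq_mul, abs_mul, abs_inv, abs_abs, inv_mul_le_iff₀ hpos, mul_one]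
    exact hj k
  have h2 : |a j| = 1 := by
    rw [ha, PiLp.smul_apply, smul_eq_mul, abs_mul, abs_inv, abs_abs, inv_mul_cancel₀ hpos.ne']
  have h3 : ∀ i, ⟪a, φ i⟫_ℝ = 0 := fun i => by
    have := congrFun (LinearMap.mem_ker.1 hv) i
    simp only [L, LinearMap.pi_apply, ContinuousLinearMap.coe_coe, innerSL_apply_apply,
      Pi.zero_apply] at this
    rw [ha, real_inner_smul_left, real_inner_comm, this, mul_zero]
  have hn : ‖a‖ ≤ n + 1 := by
    rw [EuclideanSpace.norm_eq, Real.sqrt_le_iff]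
    refine ⟨by positivity, ?_⟩
    calc ∑ i, ‖a i‖ ^ 2 ≤ ∑ _i : Fin (n + 1), (1 : ℝ) := Finset.sum_le_sum fun i _ =>
          pow_le_one₀ (norm_nonneg _) (h1 i)
      _ = n + 1 := by simp
      _ ≤ _ := by nlinarith [Nat.cast_nonneg (α := ℝ) n]
  have h4 : ∀ k, k ≠ c → |a k| < 1 / 2 := by
    intro k hk
    obtain ⟨i, rfl⟩ := hσ k hk
    have e : ⟪a, φ i - EuclideanSpace.single (σ i) 1⟫_ℝ = -a (σ i) := by
      rw [inner_sub_right, h3, EuclideanSpace.inner_single_right]; simp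
    have h5 := abs_real_inner_le_norm a (φ i - EuclideanSpace.single (σ i) 1)
    rw [e, abs_neg] at h5
    calc _ ≤ (n + 1) * ‖φ i - EuclideanSpace.single (σ i) 1‖ := h5.trans (by gcongr)
      _ < (n + 1) * (1 / (2 * (n + 1))) := by gcongr; exact h i
      _ = 1 / 2 := by field_simp
  refine ⟨a, h3, ?_, h4⟩
  by_cases hjc : j = c
  · rw [← hjc]; exact h2
  · linarith [h4 j hjc]

theorem result (n : ℕ) (hn : 2 ≤ n) :
    ¬ {x : Fin (2 * n - 2) → E n | Frame x} ⊆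
      closure {x : Fin (2 * n - 2) → E n | Frame x ∧ WPR x} := by
  obtain ⟨n, rfl⟩ : ∃ m, n = m + 1 + 1 := ⟨n - 2, by omega⟩
  have e : 2 * (n + 1 + 1) - 2 = (n + 1) + (n + 1) := by omega
  rw [e]
  intro h
  obtain ⟨σ, hσ1, hσ2⟩ : ∃ σ : Fin (n + 1 + (n + 1)) → Fin (n + 1 + 1),
      (∀ i, σ (Fin.castAdd _ i) = Fin.succAbove 0 i) ∧
      ∀ i, σ (Fin.natAdd _ i) = Fin.succAbove 1 i :=
    ⟨fun i => Fin.addCases (Fin.succAbove 0) (Fin.succAbove 1) i, fun i => Fin.addCases_left i,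
      fun i => Fin.addCases_right i⟩
  have hsurj : Function.Surjective σ := by
    intro k
    by_cases hk : k = 0
    · exact ⟨Fin.natAdd _ 0, by rw [hσ2, hk]; simp⟩
    · obtain ⟨i, hi⟩ := Fin.exists_succAbove_eq hk
      exact ⟨Fin.castAdd _ i, by rw [hσ1, hi]⟩
  have hF : Frame fun i => (EuclideanSpace.single (σ i) 1 : E (n + 1 + 1)) := by
    refine ⟨1, (n + 1 + (n + 1) : ℕ), one_pos, by norm_cast; omega, fun v => ⟨?_, ?_⟩⟩
    · obtain ⟨τ, hτ⟩ := hsurj.hasRightInverse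
      rw [one_mul, EuclideanSpace.real_norm_sq_eq]
      calc ∑ k, v k ^ 2 = ∑ i ∈ Finset.univ.image τ,
            |⟪v, (EuclideanSpace.single (σ i) 1 : E (n + 1 + 1))⟫_ℝ| ^ 2 := by
            rw [Finset.sum_image fun a _ b _ hab => hτ.injective hab]
            simp [EuclideanSpace.inner_single_right, hτ _]
        _ ≤ _ := Finset.sum_le_sum_of_subset_of_nonneg (Finset.subset_univ _)
            fun _ _ _ => by positivity
    · calc _ ≤ ∑ _i : Fin (n + 1 + (n + 1)), ‖v‖ ^ 2 := Finset.sum_le_sum fun i _ => by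
            have := abs_real_inner_le_norm v (EuclideanSpace.single (σ i) (1 : ℝ))
            rw [EuclideanSpace.norm_single, norm_one, mul_one] at this
            gcongr
        _ = _ := by simp
  obtain ⟨φ, ⟨-, hW⟩, hd⟩ := Metric.mem_closure_iff.1 (h hF) (1 / (2 * ((n + 1 : ℕ) + 1)))
    (by positivity)
  have hd' : ∀ i, ‖φ i - EuclideanSpace.single (σ i) 1‖ < 1 / (2 * ((n + 1 : ℕ) + 1)) := fun i => by
    rw [← dist_eq_norm, dist_comm]
    exact (dist_le_pi_dist (fun i => (EuclideanSpace.single (σ i) 1 : E (n + 1 + 1))) φ i).trans_lt hd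
  obtain ⟨a, ha, ha0, ha1⟩ := kernel (fun i => φ (Fin.castAdd _ i)) (Fin.succAbove 0) 0
    (fun k hk => Fin.exists_succAbove_eq hk) fun i => by
      have := hd' (Fin.castAdd _ i)
      rwa [hσ1] at this
  obtain ⟨b, hb, hb1, hb0⟩ := kernel (fun i => φ (Fin.natAdd _ i)) (Fin.succAbove 1) 1
    (fun k hk => Fin.exists_succAbove_eq hk) fun i => by
      have := hd' (Fin.natAdd _ i)
      rwa [hσ2] at this
  obtain ⟨θ, hθ, hs⟩ := hW (a + b) (a - b) fun i => by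
    refine Fin.addCases (fun i => ?_) (fun i => ?_) i
    · rw [inner_add_left, inner_sub_left, ha, zero_add, zero_sub, abs_neg]
    · rw [inner_add_left, inner_sub_left, hb, add_zero, sub_zero]
  have p0 : 0 < (a + b) 0 * (a - b) 0 := by
    have h1 := hb0 0 (by simp)
    simp only [PiLp.add_apply, PiLp.sub_apply]
    nlinarith [sq_abs (a 0), sq_abs (b 0), abs_nonneg (b 0)]
  have p1 : (a + b) 1 * (a - b) 1 < 0 := by
    have h1 := ha1 1 (by simp)
    simp only [PiLp.add_apply, PiLp.sub_apply]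
    nlinarith [sq_abs (a 1), sq_abs (b 1), abs_nonneg (a 1)]
  have s0 := hs 0 p0.ne'
  have s1 := hs 1 p1.ne
  rcases hθ with rfl | rfl
  · rcases mul_neg_iff.1 p1 with ⟨u, w⟩ | ⟨u, w⟩
    · rw [sign_pos u, sign_neg w] at s1; exact absurd s1 (by decide)
    · rw [sign_neg u, sign_pos w] at s1; exact absurd s1 (by decide)
  · rcases mul_pos_iff.1 p0 with ⟨u, w⟩ | ⟨u, w⟩
    · rw [sign_pos u, sign_pos w] at s0; exact absurd s0 (by decide)
    · rw [sign_neg u, sign_neg w] at s0; exact absurd s0 (by decide)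

end Pool.Agent.Results.MP_e57dcf_an.NotDense
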